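import Mathlib

/-!
# Isolated squarefree numbers
-/

set_option autoImplicit false

open Finset

namespace Run7.h377.MA

lemma class_lower (N R b : ℕ) {M : ℕ} (hM : 0 < M) :
    (R : ℝ) / M - 1 ≤ (((Finset.Ioc N (N + R)).filter fun y => y ≡ b [MOD M]).card : ℝ) := by
  have h := Nat.Ioc_filter_modEq_card N (N + R) hM b
  set c := (((Finset.Ioc N (N + R)).filter fun y => y ≡ b [MOD M]).card) with hc
  have hM' : (0 : ℚ) < M := by exact_mod_cast hM
  have h1 : ((R : ℚ) / M - 1) ≤ (c : ℚ) := by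
    have h2 : (⌊(((N + R : ℕ) : ℚ) - b) / M⌋ - ⌊((N : ℚ) - b) / M⌋ : ℤ) ≤ (c : ℤ) := by
      rw [h]
      exact le_max_left _ _
    have h3 := Int.sub_one_lt_floor ((((N + R : ℕ) : ℚ) - b) / M)
    have h4 := Int.floor_le (((N : ℚ) - b) / M)
    have h5 : (⌊(((N + R : ℕ) : ℚ) - b) / M⌋ : ℚ) - (⌊((N : ℚ) - b) / M⌋ : ℚ) ≤ (c : ℚ) := by
      exact_mod_cast h2
    have h6 : (((N + R : ℕ) : ℚ) - b) / M - ((N : ℚ) - b) / M = (R : ℚ) / M := by
      push_cast
      ring
    linarith
  have h7 : (((R : ℚ) / M - 1 : ℚ) : ℝ) ≤ ((c : ℚ) : ℝ) := by exact_mod_cast h1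
  push_cast at h7
  exact h7

lemma class_upper (N R b : ℕ) {M : ℕ} (hM : 0 < M) :
    (((Finset.Ioc N (N + R)).filter fun y => y ≡ b [MOD M]).card : ℝ) ≤ (R : ℝ) / M + 1 := by
  have h := Nat.Ioc_filter_modEq_card N (N + R) hM b
  set c := (((Finset.Ioc N (N + R)).filter fun y => y ≡ b [MOD M]).card) with hc
  have hM' : (0 : ℚ) < M := by exact_mod_cast hM
  have h1 : (c : ℚ) ≤ ((R : ℚ) / M + 1) := by
    have h3 := Int.floor_le ((((N + R : ℕ) : ℚ) - b) / M)
    have h4 := Int.sub_one_lt_floor (((N : ℚ) - b) / M)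
    have h6 : (((N + R : ℕ) : ℚ) - b) / M - ((N : ℚ) - b) / M = (R : ℚ) / M := by
      push_cast
      ring
    have h5 : (c : ℚ) = max ((⌊(((N + R : ℕ) : ℚ) - b) / M⌋ : ℚ) - (⌊((N : ℚ) - b) / M⌋ : ℚ)) 0 := by
      have := congrArg (fun z : ℤ => (z : ℚ)) h
      push_cast at this
      exact_mod_cast this
    rw [h5]
    refine max_le (by linarith) (by positivity)
  have h7 : ((c : ℚ) : ℝ) ≤ (((R : ℚ) / M + 1 : ℚ) : ℝ) := by exact_mod_cast h1
  push_cast at h7
  exact h7

lemma sum_sq (D : ℕ) : ∑ d ∈ Finset.Icc 2 D, 1 / (d : ℝ) ^ 2 ≤ 3 / 4 := by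
  rcases lt_or_ge D 2 with h | h
  · rw [Finset.Icc_eq_empty (by omega), Finset.sum_empty]
    norm_num
  · have key : ∑ d ∈ Finset.Icc 2 D, 1 / (d : ℝ) ^ 2 ≤ 3 / 4 - 1 / (D : ℝ) := by
      induction D, h using Nat.le_induction with
      | base =>
        rw [Finset.Icc_self, Finset.sum_singleton]
        norm_num
      | succ m hm ih =>
        rw [Finset.sum_Icc_succ_top (by omega)]
        have hm0 : (2 : ℝ) ≤ m := by exact_mod_cast hm
        have : 1 / ((m + 1 : ℕ) : ℝ) ^ 2 ≤ 1 / (m : ℝ) - 1 / ((m + 1 : ℕ) : ℝ) := by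
          push_cast
          rw [div_sub_div _ _ (by positivity) (by positivity), div_le_div_iff₀ (by positivity)
            (by positivity)]
          nlinarith
        linarith
    have : (0 : ℝ) ≤ 1 / (D : ℝ) := by positivity
    linarith

/-- squarefree numbers in a reduced residue class in an interval -/
lemma count_sqfree {M b : ℕ} (hM : 0 < M) (hb : b.Coprime M) (N R : ℕ) :
    (R : ℝ) / (4 * M) - 1 - Real.sqrt (N + R) ≤
      (((Finset.Ioc N (N + R)).filter fun y => y ≡ b [MOD M] ∧ Squarefree y).card : ℝ) := by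
  classical
  set D := Nat.sqrt (N + R) with hD
  set A := (Finset.Ioc N (N + R)).filter fun y => y ≡ b [MOD M] with hA
  set Y := (Finset.Ioc N (N + R)).filter fun y => y ≡ b [MOD M] ∧ Squarefree y with hY
  set B : ℕ → Finset ℕ := fun d => (Finset.Ioc N (N + R)).filter fun y =>
    y ≡ b [MOD M] ∧ d ^ 2 ∣ y with hB
  set T := (Finset.Icc 2 D).filter fun d => d.Coprime M with hT
  have hcover : A ⊆ Y ∪ T.biUnion B := by
    intro y hy
    rw [hA, Finset.mem_filter, Finset.mem_Ioc] at hy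
    rw [Finset.mem_union]
    by_cases hs : Squarefree y
    · left
      rw [hY, Finset.mem_filter, Finset.mem_Ioc]
      exact ⟨hy.1, hy.2, hs⟩
    · right
      rw [Nat.squarefree_iff_prime_squarefree] at hs
      push Not at hs
      obtain ⟨p, hp, hpy⟩ := hs
      rw [Finset.mem_biUnion]
      refine ⟨p, ?_, ?_⟩
      · rw [hT, Finset.mem_filter, Finset.mem_Icc]
        refine ⟨⟨hp.two_le, ?_⟩, ?_⟩
        · rw [hD, Nat.le_sqrt]
          exact (Nat.le_of_dvd (by omega) hpy).trans hy.1.2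
        · have h1 : y.Coprime M := by
            unfold Nat.Coprime
            rw [Nat.ModEq.gcd_eq hy.2]
            exact hb
          exact Nat.Coprime.coprime_dvd_left ((Dvd.intro _ rfl).trans hpy) h1
      · rw [hB]
        simp only [Finset.mem_filter, Finset.mem_Ioc]
        exact ⟨hy.1, hy.2, by rw [sq]; exact hpy⟩
  have hcard : (A.card : ℝ) ≤ Y.card + ∑ d ∈ T, ((B d).card : ℝ) := by
    have h1 := (Finset.card_le_card hcover).trans (Finset.card_union_le _ _)
    have h2 := Finset.card_biUnion_le (s := T) (t := B)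
    have h3 : A.card ≤ Y.card + ∑ d ∈ T, (B d).card := h1.trans (by omega)
    exact_mod_cast h3
  have hBd : ∀ d ∈ T, ((B d).card : ℝ) ≤ (R : ℝ) / M * (1 / (d : ℝ) ^ 2) + 1 := by
    intro d hd
    rw [hT, Finset.mem_filter, Finset.mem_Icc] at hd
    have hco : M.Coprime (d ^ 2) := (Nat.Coprime.pow_left 2 hd.2).symm
    obtain ⟨k, hk1, hk2⟩ := Nat.chineseRemainder hco b 0
    have hsub : B d ⊆ (Finset.Ioc N (N + R)).filter fun y => y ≡ k [MOD M * d ^ 2] := by
      intro y hy
      rw [hB] at hy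
      simp only [Finset.mem_filter] at hy ⊢
      refine ⟨hy.1, ?_⟩
      refine (Nat.modEq_and_modEq_iff_modEq_mul hco).1 ⟨hy.2.1.trans hk1.symm, ?_⟩
      exact ((Nat.modEq_zero_iff_dvd).2 hy.2.2).trans hk2.symm
    have hd0 : 0 < d := by omega
    have h1 := class_upper N R k (M := M * d ^ 2) (by positivity)
    have h2 : ((B d).card : ℝ) ≤ _ := (by exact_mod_cast Finset.card_le_card hsub :
      ((B d).card : ℝ) ≤ (((Finset.Ioc N (N + R)).filter fun y => y ≡ k [MOD M * d ^ 2]).card : ℝ))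
    refine (h2.trans h1).trans (le_of_eq ?_)
    push_cast
    rw [div_mul_div_comm, mul_one]
  have hsum : ∑ d ∈ T, ((B d).card : ℝ) ≤ (R : ℝ) / M * (3 / 4) + D := by
    refine (Finset.sum_le_sum hBd).trans ?_
    rw [Finset.sum_add_distrib, ← Finset.mul_sum]
    refine add_le_add ?_ ?_
    · refine mul_le_mul_of_nonneg_left ?_ (by positivity)
      refine le_trans ?_ (sum_sq D)
      exact Finset.sum_le_sum_of_subset_of_nonneg (Finset.filter_subset _ _)
        fun d _ _ => by positivity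
    · rw [Finset.sum_const, nsmul_eq_mul, mul_one]
      have : T.card ≤ (Finset.Icc 2 D).card := Finset.card_le_card (Finset.filter_subset _ _)
      rw [Nat.card_Icc] at this
      have h2 : T.card ≤ D := by omega
      exact_mod_cast h2
  have hDs : (D : ℝ) ≤ Real.sqrt (N + R) := by
    refine Real.le_sqrt_of_sq_le ?_
    have := Nat.sqrt_le' (N + R)
    exact_mod_cast this
  have hlow := class_lower N R b hM
  have h4 : (R : ℝ) / (4 * M) = (R : ℝ) / M * (1 / 4) := by
    rw [div_mul_div_comm, mul_one, mul_comm (4 : ℝ)]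
  rw [h4]
  have h5 : (R : ℝ) / M - 1 ≤ (A.card : ℝ) := hlow
  linarith

/-- isolated squarefree numbers -/
lemma isolated {H P X : ℕ} (hP : 0 < P)
    (hX : 3 * H + 1 + P ≤ Nat.primeCounting X) (N R : ℕ) :
    ∃ Y : Finset ℕ, (∀ y ∈ Y, y ∈ Finset.Ioc N (N + R) ∧ Squarefree y ∧ y.Coprime P ∧
      ∀ n : ℕ, n ≠ y → |(y : ℤ) - n| ≤ H → ¬ Squarefree n) ∧
      (R : ℝ) / (4 * (16 ^ X * P)) - 1 - Real.sqrt (N + R) ≤ Y.card := by
  classical
  set B := max H P with hBd
  have hBle : B ≤ H + P := by omega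
  set s := (Finset.Ioc B X).filter Nat.Prime with hs
  have hscard : 2 * H + 1 ≤ s.card := by
    have h1 : Nat.primeCounting X ≤ B + s.card := by
      rw [Nat.primeCounting, Nat.primeCounting', Nat.count_eq_card_filter_range]
      refine (Finset.card_le_card (t := Finset.Icc 1 B ∪ s) ?_).trans
        ((Finset.card_union_le _ _).trans ?_)
      · intro p hp
        rw [Finset.mem_filter, Finset.mem_range] at hp
        rw [Finset.mem_union, hs, Finset.mem_filter, Finset.mem_Icc, Finset.mem_Ioc]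
        have := hp.2.pos
        rcases le_or_gt p B with h | h
        · left; omega
        · right; exact ⟨⟨h, by omega⟩, hp.2⟩
      · rw [Nat.card_Icc]
        omega
    omega
  obtain ⟨t, hts, htc⟩ := Finset.exists_subset_card_eq hscard
  have e := (Finset.equivFinOfCardEq htc).symm
  set p : ℕ → ℕ := fun j => if h : j < 2 * H + 1 then (e ⟨j, h⟩ : ℕ) else 1 with hp
  have hpt : ∀ j ∈ Finset.range (2 * H + 1), p j ∈ t := by
    intro j hj
    rw [hp]
    simp only [Finset.mem_range.1 hj, dif_pos]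
    exact (e _).2
  have hinj : Set.InjOn p (Finset.range (2 * H + 1) : Set ℕ) := by
    intro j hj j' hj' h
    have a1 : j < 2 * H + 1 := by simpa using hj
    have a2 : j' < 2 * H + 1 := by simpa using hj'
    rw [hp] at h
    simp only [a1, a2, dif_pos] at h
    have := e.injective (Subtype.ext h)
    simpa using this
  have hpp : ∀ j ∈ Finset.range (2 * H + 1), (p j).Prime ∧ B < p j ∧ p j ≤ X := by
    intro j hj
    have := hts (hpt j hj)
    rw [hs, Finset.mem_filter, Finset.mem_Ioc] at this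
    exact ⟨this.2, this.1.1, this.1.2⟩
  set J := (Finset.range (2 * H + 1)).erase H with hJ
  set Q := ∏ j ∈ J, (p j) ^ 2 with hQ
  have hJr : ∀ j ∈ J, j ∈ Finset.range (2 * H + 1) := fun j hj => Finset.mem_of_mem_erase hj
  have hpair : Set.Pairwise (J : Set ℕ) (Function.onFun Nat.Coprime fun j => p j ^ 2) := by
    intro j hj j' hj' hne
    refine Nat.Coprime.pow _ _ ?_
    rw [Nat.coprime_primes (hpp j (hJr j hj)).1 (hpp j' (hJr j' hj')).1]
    intro h
    exact hne (hinj (by exact_mod_cast hJr j hj) (by exact_mod_cast hJr j' hj') h)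
  obtain ⟨a, ha⟩ := Nat.chineseRemainderOfFinset (fun j => (p j ^ 2 - 1) * j)
    (fun j => p j ^ 2) J (fun j hj => pow_ne_zero _ (hpp j (hJr j hj)).1.ne_zero) hpair
  have hdvd : ∀ j ∈ J, p j ^ 2 ∣ a + j := by
    intro j hj
    have h1 := (ha j hj).add_right j
    have h2 : (p j ^ 2 - 1) * j + j = p j ^ 2 * j := by
      have h3 : 1 ≤ p j ^ 2 := Nat.one_le_pow _ _ (hpp j (hJr j hj)).1.pos
      obtain ⟨m, hm⟩ := Nat.exists_eq_add_of_le h3
      rw [hm]
      simp only [Nat.add_sub_cancel_left]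
      ring
    rw [h2] at h1
    exact (Nat.modEq_zero_iff_dvd).1 (h1.trans ((Nat.modEq_zero_iff_dvd).2 (Dvd.intro _ rfl)))
  have hQpos : 0 < Q := Finset.prod_pos fun j hj => pow_pos (hpp j (hJr j hj)).1.pos 2
  have hQP : Q.Coprime P := by
    refine Nat.Coprime.prod_left fun j hj => Nat.Coprime.pow_left 2 ?_
    have h1 := hpp j (hJr j hj)
    rw [h1.1.coprime_iff_not_dvd]
    intro h
    have := Nat.le_of_dvd hP h
    omega
  obtain ⟨b, hb1, hb2⟩ := Nat.chineseRemainder hQP (a + H) 1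
  have hbQ : (a + H).Coprime Q := by
    refine Nat.Coprime.prod_right fun j hj => Nat.Coprime.pow_right 2 ?_
    have h1 := hpp j (hJr j hj)
    rw [Nat.coprime_comm, h1.1.coprime_iff_not_dvd]
    intro h
    have h2 : p j ∣ a + j := (Dvd.intro_left _ rfl : p j ∣ p j ^ 1 * p j).trans (by
      have := hdvd j hj
      rwa [pow_succ] at this)
    have hjn : j ≠ H := Finset.ne_of_mem_erase hj
    have hjr := Finset.mem_range.1 (hJr j hj)
    rcases lt_or_gt_of_ne hjn with h3 | h3
    · have h4 : p j ∣ H - j := by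
        have := Nat.dvd_sub h h2
        rwa [Nat.add_sub_add_left] at this
      have := Nat.le_of_dvd (by omega) h4
      omega
    · have h4 : p j ∣ j - H := by
        have := Nat.dvd_sub h2 h
        rwa [Nat.add_sub_add_left] at this
      have := Nat.le_of_dvd (by omega) h4
      omega
  have hbco : b.Coprime (Q * P) := by
    refine Nat.Coprime.mul_right ?_ ?_
    · unfold Nat.Coprime
      rw [Nat.ModEq.gcd_eq hb1]
      exact hbQ
    · unfold Nat.Coprime
      rw [Nat.ModEq.gcd_eq hb2]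
      exact Nat.gcd_one_left _
  have hQP0 : 0 < Q * P := Nat.mul_pos hQpos hP
  refine ⟨(Finset.Ioc N (N + R)).filter fun y => y ≡ b [MOD Q * P] ∧ Squarefree y, ?_, ?_⟩
  · intro y hy
    rw [Finset.mem_filter] at hy
    obtain ⟨hy1, hy2, hy3⟩ := hy
    have hyP : y ≡ b [MOD P] := hy2.of_mul_left Q
    have hyQ : y ≡ b [MOD Q] := hy2.of_mul_right P
    refine ⟨hy1, hy3, ?_, ?_⟩
    · unfold Nat.Coprime
      rw [Nat.ModEq.gcd_eq (hyP.trans hb2)]
      exact Nat.gcd_one_left _
    · intro n hn hle hsq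
      have hj : ∃ j : ℕ, (j : ℤ) = (n : ℤ) - y + H := by
        refine ⟨((n : ℤ) - y + H).toNat, ?_⟩
        rw [abs_le] at hle
        omega
      obtain ⟨j, hj⟩ := hj
      have hjJ : j ∈ J := by
        rw [hJ, Finset.mem_erase, Finset.mem_range]
        rw [abs_le] at hle
        constructor
        · intro h; apply hn; omega
        · omega
      have h1 : ((p j ^ 2 : ℕ) : ℤ) ∣ (n : ℤ) := by
        have h2 : ((p j ^ 2 : ℕ) : ℤ) ∣ (y : ℤ) - (a + H : ℕ) := by
          have h3 : y ≡ a + H [MOD p j ^ 2] :=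
            (hyQ.trans hb1).of_dvd (Finset.dvd_prod_of_mem (fun j => p j ^ 2) hjJ)
          exact (Nat.modEq_iff_dvd.1 h3.symm)
        have h4 : ((p j ^ 2 : ℕ) : ℤ) ∣ ((a + j : ℕ) : ℤ) := by exact_mod_cast hdvd j hjJ
        have h5 : (n : ℤ) = ((y : ℤ) - (a + H : ℕ)) + ((a + j : ℕ) : ℤ) := by
          push_cast
          omega
        rw [h5]
        exact dvd_add h2 h4
      have h6 : p j ^ 2 ∣ n := by exact_mod_cast h1
      have h7 := (hpp j (hJr j hjJ)).1
      have h8 := Nat.squarefree_iff_prime_squarefree.1 hsq (p j) h7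
      rw [← sq] at h8
      exact h8 h6
  · have h1 := count_sqfree hQP0 hbco N R
    have hQle : Q ≤ 16 ^ X := by
      have h2 : ∏ j ∈ J, p j ≤ 4 ^ X := by
        have h3 : ∏ j ∈ J, p j = ∏ q ∈ J.image p, q := by
          rw [Finset.prod_image]
          intro j hj j' hj' h
          exact hinj (by exact_mod_cast hJr j hj) (by exact_mod_cast hJr j' hj') h
        rw [h3]
        refine le_trans ?_ (primorial_le_four_pow X)
        unfold primorial
        refine Finset.prod_le_prod_of_subset_of_one_le' ?_ ?_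
        · intro q hq
          obtain ⟨j, hj, rfl⟩ := Finset.mem_image.1 hq
          have h4 := hpp j (hJr j hj)
          rw [Finset.mem_filter, Finset.mem_range]
          exact ⟨by omega, h4.1⟩
        · intro q hq _
          exact (Finset.mem_filter.1 hq).2.pos
      have h5 : Q = (∏ j ∈ J, p j) ^ 2 := by
        rw [hQ, Finset.prod_pow]
      rw [h5]
      calc (∏ j ∈ J, p j) ^ 2 ≤ (4 ^ X) ^ 2 := Nat.pow_le_pow_left h2 2
        _ = 16 ^ X := by
          rw [← pow_mul, mul_comm, pow_mul]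
          norm_num
    refine le_trans ?_ h1
    have h6 : (R : ℝ) / (4 * (16 ^ X * P)) ≤ (R : ℝ) / (4 * ((Q * P : ℕ) : ℝ)) := by
      have : ((Q * P : ℕ) : ℝ) ≤ 16 ^ X * P := by
        push_cast
        have : (Q : ℝ) ≤ 16 ^ X := by exact_mod_cast hQle
        gcongr
      have hpos : (0 : ℝ) < ((Q * P : ℕ) : ℝ) := by exact_mod_cast hQP0
      gcongr
    linarith

end Run7.h377.MA
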