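import Mathlib

/-!
# A window on a short arc and Bessel's inequality
-/

set_option autoImplicit false

open Filter Topology MeasureTheory Finset
open scoped ComplexConjugate Real

namespace Run7.h377.MA

/-- `e(x) = exp(2πix)` -/
noncomputable def e (x : ℝ) : ℂ := Complex.exp (2 * Real.pi * Complex.I * x)

lemma e_add (x y : ℝ) : e (x + y) = e x * e y := by
  unfold e
  rw [← Complex.exp_add]
  congr 1
  push_cast
  ring

lemma e_zero : e 0 = 1 := by simp [e]

lemma e_norm (x : ℝ) : ‖e x‖ = 1 := by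
  unfold e
  rw [show (2 * Real.pi * Complex.I * x : ℂ) = ((2 * Real.pi * x : ℝ) : ℂ) * Complex.I by
    push_cast; ring]
  exact Complex.norm_exp_ofReal_mul_I _

lemma e_conj (x : ℝ) : conj (e x) = e (-x) := by
  unfold e
  rw [← Complex.exp_conj]
  congr 1
  simp only [map_mul, Complex.conj_ofReal, Complex.conj_I, map_ofNat]
  push_cast
  ring

lemma e_int (k : ℤ) : e k = 1 := by
  unfold e
  rw [Complex.exp_eq_one_iff]
  refine ⟨k, ?_⟩
  push_cast
  ring

lemma e_cont : Continuous e := by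
  unfold e
  fun_prop

lemma e_cont' (c : ℝ) : Continuous fun x : ℝ => e (c * x) := e_cont.comp (continuous_const.mul continuous_id)

lemma int_e {c : ℝ} (hc : c ≠ 0) (u v : ℝ) :
    ∫ x in u..v, e (c * x) = (e (c * v) - e (c * u)) / (2 * Real.pi * Complex.I * c) := by
  have h1 : (2 * Real.pi * Complex.I * c : ℂ) ≠ 0 := by
    simp [hc, Real.pi_ne_zero]
  have h2 := integral_exp_mul_complex (a := u) (b := v) h1
  unfold e
  rw [← (show (∫ x in u..v, Complex.exp (2 * Real.pi * Complex.I * c * x)) =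
    ∫ x in u..v, Complex.exp (2 * Real.pi * Complex.I * ((c * x : ℝ) : ℂ)) from by
      congr 1
      funext x
      congr 1
      push_cast
      ring), h2]
  push_cast
  congr 2
  · congr 1
    ring
  · congr 1
    ring

lemma int_e_one (α : ℝ) (k : ℤ) : ∫ x in α..(α + 1), e (k * x) = if k = 0 then 1 else 0 := by
  split_ifs with h
  · subst h
    simp [e]
  · rw [int_e (by exact_mod_cast h)]
    have : (k : ℝ) * (α + 1) = k * α + k := by ring
    rw [this, e_add, e_int, mul_one, sub_self, zero_div]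

/-- Bessel's inequality on a short arc -/
lemma bessel {α δ : ℝ} (hδ : 0 ≤ δ) (hδ1 : δ ≤ 1) (h : ℝ → ℂ) (hc : Continuous h)
    (Y : Finset ℕ) (c : ℕ → ℂ) (hcy : ∀ y, c y = ∫ x in α..(α + δ), h x * e (-(y * x))) :
    ∑ y ∈ Y, ‖c y‖ ^ 2 ≤ ∫ x in α..(α + δ), ‖h x‖ ^ 2 := by
  set P : ℝ → ℂ := fun x => ∑ y ∈ Y, c y * e (y * x) with hP
  have hPc : Continuous P := continuous_finsetSum _ fun y _ => continuous_const.mul (e_cont' _)
  have hPconj : ∀ x, conj (P x) = ∑ y ∈ Y, conj (c y) * e (-(y * x)) := by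
    intro x
    rw [hP]
    simp only [map_sum, map_mul, e_conj]
  have nsq : ∀ z : ℂ, conj z * z = ((‖z‖ ^ 2 : ℝ) : ℂ) := by
    intro z
    rw [Complex.conj_mul']
    push_cast
    rfl
  have I1 : ∫ x in α..(α + δ), h x * conj (P x) = ((∑ y ∈ Y, ‖c y‖ ^ 2 : ℝ) : ℂ) := by
    have : ∀ x, h x * conj (P x) = ∑ y ∈ Y, conj (c y) * (h x * e (-(y * x))) := by
      intro x
      rw [hPconj, Finset.mul_sum]
      exact Finset.sum_congr rfl fun y _ => by ring
    simp only [this]
    rw [intervalIntegral.integral_finsetSum]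
    · push_cast
      refine Finset.sum_congr rfl fun y _ => ?_
      rw [intervalIntegral.integral_const_mul, ← hcy, nsq]
      push_cast
      rfl
    · intro y _
      refine Continuous.intervalIntegrable ?_ _ _
      refine continuous_const.mul (hc.mul ?_)
      have := e_cont' (-(y : ℝ))
      simpa [neg_mul] using this
  have I2 : ∫ x in α..(α + 1), ((‖P x‖ ^ 2 : ℝ) : ℂ) = ((∑ y ∈ Y, ‖c y‖ ^ 2 : ℝ) : ℂ) := by
    have : ∀ x, ((‖P x‖ ^ 2 : ℝ) : ℂ) = ∑ y ∈ Y, ∑ y' ∈ Y, conj (c y) * c y' *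
        e ((((y' : ℤ) - (y : ℤ) : ℤ) : ℝ) * x) := by
      intro x
      rw [← nsq, hPconj, hP, Finset.sum_mul_sum]
      refine Finset.sum_congr rfl fun y _ => Finset.sum_congr rfl fun y' _ => ?_
      have : (((y' : ℤ) - (y : ℤ) : ℤ) : ℝ) * x = -(y * x) + y' * x := by
        push_cast
        ring
      rw [this, e_add]
      ring
    simp only [this]
    rw [intervalIntegral.integral_finsetSum]
    · rw [Complex.ofReal_sum]
      refine Finset.sum_congr rfl fun y hy => ?_
      rw [intervalIntegral.integral_finsetSum]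
      · rw [Finset.sum_eq_single y]
        · rw [intervalIntegral.integral_const_mul, int_e_one, if_pos (sub_self _), mul_one, nsq]
        · intro y' _ hne
          rw [intervalIntegral.integral_const_mul, int_e_one, if_neg, mul_zero]
          intro h0
          apply hne
          have := sub_eq_zero.1 h0
          exact_mod_cast this
        · intro h0
          exact absurd hy h0
      · intro y' _
        exact (continuous_const.mul (e_cont' _)).intervalIntegrable _ _
    · intro y _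
      exact (continuous_finsetSum _ fun y' _ =>
        continuous_const.mul (e_cont' _)).intervalIntegrable _ _
  have I2' : ∫ x in α..(α + 1), ‖P x‖ ^ 2 = ∑ y ∈ Y, ‖c y‖ ^ 2 := by
    rw [intervalIntegral.integral_ofReal] at I2
    exact_mod_cast I2
  have I1' : ∫ x in α..(α + δ), (h x * conj (P x)).re = ∑ y ∈ Y, ‖c y‖ ^ 2 := by
    have hint : IntervalIntegrable (fun x => h x * conj (P x)) volume α (α + δ) :=
      (hc.mul (Complex.continuous_conj.comp hPc)).intervalIntegrable _ _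
    have := Complex.reCLM.intervalIntegral_comp_comm hint
    simp only [Complex.reCLM_apply] at this
    rw [this, I1, Complex.ofReal_re]
  have hcn : Continuous fun x => ‖h x‖ ^ 2 := hc.norm.pow 2
  have hPn : Continuous fun x => ‖P x‖ ^ 2 := hPc.norm.pow 2
  have hle : ∫ x in α..(α + δ), 2 * (h x * conj (P x)).re ≤
      ∫ x in α..(α + δ), (‖h x‖ ^ 2 + ‖P x‖ ^ 2) := by
    refine intervalIntegral.integral_mono_on (by linarith) ?_ ?_ fun x _ => ?_
    · refine Continuous.intervalIntegrable ?_ _ _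
      exact continuous_const.mul (Complex.continuous_re.comp (hc.mul (Complex.continuous_conj.comp hPc)))
    · exact (hcn.add hPn).intervalIntegrable _ _
    · have h1 : (h x * conj (P x)).re ≤ ‖h x‖ * ‖P x‖ := by
        refine (Complex.re_le_norm _).trans ?_
        rw [norm_mul, RCLike.norm_conj]
      nlinarith [sq_nonneg (‖h x‖ - ‖P x‖)]
  rw [intervalIntegral.integral_const_mul, I1', intervalIntegral.integral_add
    (hcn.intervalIntegrable _ _) (hPn.intervalIntegrable _ _)] at hle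
  have hmono : ∫ x in α..(α + δ), ‖P x‖ ^ 2 ≤ ∫ x in α..(α + 1), ‖P x‖ ^ 2 := by
    refine intervalIntegral.integral_mono_interval le_rfl (by linarith) (by linarith) ?_
      (hPn.intervalIntegrable _ _)
    exact Filter.Eventually.of_forall fun x => by positivity
  rw [I2'] at hmono
  linarith

/-- the window -/
noncomputable def win (α δ x : ℝ) : ℂ :=
  1 / 2 - (1 / 4) * e ((x - α) / δ) - (1 / 4) * e (-((x - α) / δ))

lemma win_cont (α δ : ℝ) : Continuous (win α δ) := by
  unfold win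
  have h1 : Continuous fun x : ℝ => e ((x - α) / δ) := e_cont.comp (by fun_prop)
  have h2 : Continuous fun x : ℝ => e (-((x - α) / δ)) := e_cont.comp (by fun_prop)
  exact (continuous_const.sub (continuous_const.mul h1)).sub (continuous_const.mul h2)

lemma win_le (α δ x : ℝ) : ‖win α δ x‖ ≤ 1 := by
  unfold win
  refine (norm_sub_le _ _).trans ?_
  refine (add_le_add_left (norm_sub_le _ _) _).trans ?_
  rw [norm_mul, norm_mul, e_norm, e_norm]
  norm_num

/-- the Fourier transform of the window -/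
noncomputable def wh (α δ : ℝ) (k : ℤ) : ℂ := ∫ x in α..(α + δ), win α δ x * e (-(k * x))

lemma win_e (α δ : ℝ) (k : ℤ) (x : ℝ) : win α δ x * e (-(k * x)) =
    1 / 2 * e ((-(k : ℝ)) * x) - (1 / 4) * e (-(α / δ)) * e ((1 / δ - k) * x) -
      (1 / 4) * e (α / δ) * e ((-(1 / δ) - k) * x) := by
  unfold win
  have h1 : (x - α) / δ = -(α / δ) + (1 / δ) * x := by ring
  have h2 : -((x - α) / δ) = α / δ + (-(1 / δ)) * x := by ring
  have h3 : (1 / δ - k) * x = (1 / δ) * x + -(k * x) := by ring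
  have h4 : (-(1 / δ) - k) * x = (-(1 / δ)) * x + -(k * x) := by ring
  have h5 : (-(k : ℝ)) * x = -(k * x) := by ring
  rw [h2, h1, h3, h4, h5, e_add, e_add, e_add, e_add]
  ring

lemma wh_zero {α δ : ℝ} (hδ : 0 < δ) : wh α δ 0 = δ / 2 := by
  unfold wh
  simp only [win_e]
  have e1 : ∀ x : ℝ, e (-((0 : ℤ) : ℝ) * x) = 1 := fun x => by simp [e]
  have hT : (1 / δ - ((0 : ℤ) : ℝ)) ≠ 0 := by
    simp [hδ.ne']
  have hT' : (-(1 / δ) - ((0 : ℤ) : ℝ)) ≠ 0 := by
    simp [hδ.ne']
  rw [intervalIntegral.integral_sub, intervalIntegral.integral_sub,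
    intervalIntegral.integral_const_mul, intervalIntegral.integral_const_mul,
    intervalIntegral.integral_const_mul, int_e hT, int_e hT']
  · simp only [e1]
    have h1 : (1 / δ - ((0 : ℤ) : ℝ)) * (α + δ) = (1 / δ - ((0 : ℤ) : ℝ)) * α + ((1 : ℤ) : ℝ) := by
      field_simp
      simp
      try ring
    have h2 : (-(1 / δ) - ((0 : ℤ) : ℝ)) * (α + δ) = (-(1 / δ) - ((0 : ℤ) : ℝ)) * α +
        ((-1 : ℤ) : ℝ) := by
      field_simp
      simp
      try ring
    rw [h1, h2, e_add, e_add, e_int, e_int]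
    simp
    ring
  · exact (continuous_const.mul (e_cont' _)).intervalIntegrable _ _
  · exact (continuous_const.mul (e_cont' _)).intervalIntegrable _ _
  · exact ((continuous_const.mul (e_cont' _)).sub
      (continuous_const.mul (e_cont' _))).intervalIntegrable _ _
  · exact (continuous_const.mul (e_cont' _)).intervalIntegrable _ _

lemma wh_val {α δ : ℝ} (hδ : 0 < δ) {k : ℤ} (hk : k ≠ 0) (h1 : (1 / δ - k : ℝ) ≠ 0)
    (h2 : (-(1 / δ) - k : ℝ) ≠ 0) :
    wh α δ k = e (-(k * α)) * (e (-(k * δ)) - 1) / (2 * Real.pi * Complex.I) *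
      (-((1 / δ : ℝ) : ℂ) ^ 2 / (2 * k * (((1 / δ : ℝ) : ℂ) ^ 2 - (k : ℂ) ^ 2))) := by
  unfold wh
  simp only [win_e]
  have hk' : (-(k : ℝ)) ≠ 0 := by
    rw [neg_ne_zero]
    exact_mod_cast hk
  rw [intervalIntegral.integral_sub, intervalIntegral.integral_sub,
    intervalIntegral.integral_const_mul, intervalIntegral.integral_const_mul,
    intervalIntegral.integral_const_mul, int_e hk', int_e h1, int_e h2]
  · have a0 : (-(k : ℝ)) * (α + δ) = -(k * α) + -(k * δ) := by ring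
    have a0' : (-(k : ℝ)) * α = -(k * α) := by ring
    have a1 : (1 / δ - k : ℝ) * (α + δ) = α / δ + (-(k * α) + (-(k * δ) + ((1 : ℤ) : ℝ))) := by
      field_simp
      push_cast
      ring
    have a1' : (1 / δ - k : ℝ) * α = α / δ + -(k * α) := by ring
    have a2 : (-(1 / δ) - k : ℝ) * (α + δ) = -(α / δ) + (-(k * α) + (-(k * δ) +
        ((-1 : ℤ) : ℝ))) := by
      field_simp
      push_cast
      ring
    have a2' : (-(1 / δ) - k : ℝ) * α = -(α / δ) + -(k * α) := by ring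
    have b : e (-(α / δ)) * e (α / δ) = 1 := by
      rw [← e_add, neg_add_cancel, e_zero]
    rw [a0, a0', a1, a1', a2, a2']
    simp only [e_add, e_int, mul_one]
    set A := e (α / δ)
    set A' := e (-(α / δ))
    set K := e (-(k * α))
    set D := e (-(k * δ))
    have hpi : (Real.pi : ℂ) ≠ 0 := by exact_mod_cast Real.pi_ne_zero
    have hI := Complex.I_ne_zero
    have hkC : (k : ℂ) ≠ 0 := by exact_mod_cast hk
    have h1C : ((1 / δ : ℝ) : ℂ) - k ≠ 0 := by exact_mod_cast h1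
    have h2C : -((1 / δ : ℝ) : ℂ) - k ≠ 0 := by exact_mod_cast h2
    set T : ℂ := ((1 / δ : ℝ) : ℂ) with hT
    have hTk : T ^ 2 - (k : ℂ) ^ 2 ≠ 0 := by
      have : T ^ 2 - (k : ℂ) ^ 2 = -((T - k) * (-T - k)) := by ring
      rw [this]
      exact neg_ne_zero.2 (mul_ne_zero h1C h2C)
    have c1 : (((1 / δ - k : ℝ)) : ℂ) = T - k := by
      rw [hT]; push_cast; ring
    have c2 : (((-(1 / δ) - k : ℝ)) : ℂ) = -T - k := by
      rw [hT]; push_cast; ring
    have c3 : ((-(k : ℝ) : ℝ) : ℂ) = -k := by push_cast; ring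
    rw [c1, c2, c3]
    have d1 : 1 / 4 * A' * ((A * (K * D) - A * K) / (2 * Real.pi * Complex.I * (T - k))) =
        1 / 4 * ((K * (D - 1)) / (2 * Real.pi * Complex.I * (T - k))) := by
      have : A * (K * D) - A * K = A * (K * (D - 1)) := by ring
      rw [this, mul_div_assoc, ← mul_assoc, mul_assoc (1 / 4) A' A, b, mul_one]
    have d2 : 1 / 4 * A * ((A' * (K * D) - A' * K) / (2 * Real.pi * Complex.I * (-T - k))) =
        1 / 4 * ((K * (D - 1)) / (2 * Real.pi * Complex.I * (-T - k))) := by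
      have : A' * (K * D) - A' * K = A' * (K * (D - 1)) := by ring
      rw [this, mul_div_assoc, ← mul_assoc, mul_assoc (1 / 4) A A', mul_comm A A', b, mul_one]
    rw [d1, d2]
    have hm1 : -(k : ℂ) ≠ 0 := neg_ne_zero.2 hkC
    field_simp
    ring
  · exact (continuous_const.mul (e_cont' _)).intervalIntegrable _ _
  · exact (continuous_const.mul (e_cont' _)).intervalIntegrable _ _
  · exact ((continuous_const.mul (e_cont' _)).sub
      (continuous_const.mul (e_cont' _))).intervalIntegrable _ _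
  · exact (continuous_const.mul (e_cont' _)).intervalIntegrable _ _

lemma wh_le {α δ : ℝ} (hδ : 0 < δ) {k : ℤ} (hk : 2 / δ ≤ |(k : ℝ)|) :
    ‖wh α δ k‖ ≤ (1 / δ) ^ 2 / (4 * |(k : ℝ)| ^ 3) := by
  have hT : 0 < 1 / δ := by positivity
  set T := 1 / δ with hTd
  have hk2 : 2 * T ≤ |(k : ℝ)| := by
    rw [hTd]
    calc 2 * (1 / δ) = 2 / δ := by ring
      _ ≤ _ := hk
  have hkpos : 0 < |(k : ℝ)| := by linarith
  have hk0 : k ≠ 0 := by
    rintro rfl
    simp at hkpos
  have hsq : (k : ℝ) ^ 2 = |(k : ℝ)| ^ 2 := (sq_abs _).symm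
  have h1 : (T - k : ℝ) ≠ 0 := by
    intro h
    have : (k : ℝ) = T := by linarith
    rw [this, abs_of_pos hT] at hk2
    linarith
  have h2 : (-T - k : ℝ) ≠ 0 := by
    intro h
    have : (k : ℝ) = -T := by linarith
    rw [this, abs_neg, abs_of_pos hT] at hk2
    linarith
  rw [wh_val hδ hk0 h1 h2, norm_mul, norm_div, norm_mul, e_norm, one_mul, norm_div, norm_mul,
    norm_mul, norm_mul, norm_neg, norm_pow, ← hTd]
  have n1 : ‖e (-(k * δ)) - 1‖ ≤ 2 := by
    refine (norm_sub_le _ _).trans ?_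
    rw [e_norm, norm_one]
    norm_num
  have n2 : ‖((T : ℝ) : ℂ)‖ = T := by
    rw [Complex.norm_real, Real.norm_of_nonneg hT.le]
  have n3 : ‖(k : ℂ)‖ = |(k : ℝ)| := by
    rw [← Complex.ofReal_intCast, Complex.norm_real]
    rfl
  have n4 : ‖((T : ℝ) : ℂ) ^ 2 - (k : ℂ) ^ 2‖ = |(k : ℝ)| ^ 2 - T ^ 2 := by
    have : ((T : ℝ) : ℂ) ^ 2 - (k : ℂ) ^ 2 = ((T ^ 2 - (k : ℝ) ^ 2 : ℝ) : ℂ) := by push_cast; ring
    rw [this, Complex.norm_real, Real.norm_eq_abs, hsq, abs_sub_comm, abs_of_nonneg]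
    nlinarith
  have n5 : ‖((Real.pi : ℝ) : ℂ)‖ = Real.pi := by
    rw [Complex.norm_real, Real.norm_of_nonneg Real.pi_pos.le]
  have n6 : ‖(2 : ℂ)‖ = 2 := by simp
  rw [norm_mul, n2, n3, n4, n5, n6, Complex.norm_I, mul_one]
  set K := |(k : ℝ)| with hK
  have hpi := Real.pi_gt_three
  have hq : 3 / 4 * K ^ 2 ≤ K ^ 2 - T ^ 2 := by nlinarith
  have hq0 : 0 < 3 / 4 * K ^ 2 := by positivity
  calc ‖e (-(k * δ)) - 1‖ / (2 * Real.pi) * (T ^ 2 / (2 * K * (K ^ 2 - T ^ 2)))
      ≤ 2 / (2 * 3) * (T ^ 2 / (2 * K * (3 / 4 * K ^ 2))) := by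
        refine mul_le_mul ?_ ?_ (div_nonneg (sq_nonneg _)
          (mul_nonneg (by positivity) (hq0.le.trans hq))) (by positivity)
        · gcongr
        · gcongr
    _ = (T ^ 2 / K ^ 3) * (2 / 9) := by
        field_simp
        ring
    _ ≤ (T ^ 2 / K ^ 3) * (1 / 4) := by
        have : 0 ≤ T ^ 2 / K ^ 3 := by positivity
        nlinarith
    _ = T ^ 2 / (4 * K ^ 3) := by
        field_simp

lemma pos_sum {H : ℕ} (hH : 1 ≤ H) (M : ℕ) : ∑ m ∈ Finset.Ioc H M, 1 / (m : ℝ) ^ 3 ≤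
    1 / (2 * (H : ℝ) ^ 2) := by
  rcases lt_or_ge M H with h | h
  · rw [Finset.Ioc_eq_empty (by omega), Finset.sum_empty]
    positivity
  · have key : ∑ m ∈ Finset.Ioc H M, 1 / (m : ℝ) ^ 3 ≤
        1 / (2 * (H : ℝ) ^ 2) - 1 / (2 * (M : ℝ) ^ 2) := by
      induction M, h using Nat.le_induction with
      | base => simp
      | succ m hm ih =>
        rw [Finset.sum_Ioc_succ_top (by omega)]
        have hm0 : (1 : ℝ) ≤ m := by exact_mod_cast hH.trans hm
        have : 1 / ((m + 1 : ℕ) : ℝ) ^ 3 ≤ 1 / (2 * (m : ℝ) ^ 2) - 1 / (2 * ((m + 1 : ℕ) : ℝ) ^ 2) := by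
          push_cast
          rw [div_sub_div _ _ (by positivity) (by positivity), div_le_div_iff₀ (by positivity)
            (by positivity)]
          have : 0 ≤ (m : ℝ) := by positivity
          nlinarith [mul_nonneg this this, mul_nonneg (mul_nonneg this this) this]
        linarith
    refine key.trans ?_
    have : 0 ≤ 1 / (2 * (M : ℝ) ^ 2) := by positivity
    linarith

lemma int_sum {H : ℕ} (hH : 1 ≤ H) (s : Finset ℤ) (hs : ∀ k ∈ s, (H : ℤ) < |k|) :
    ∑ k ∈ s, 1 / |(k : ℝ)| ^ 3 ≤ 1 / (H : ℝ) ^ 2 := by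
  set M := s.sup Int.natAbs with hM
  have h1 : ∀ t ⊆ s, ∀ σ : ℤ, (σ = 1 ∨ σ = -1) → (∀ k ∈ t, 0 < σ * k) →
      ∑ k ∈ t, 1 / |(k : ℝ)| ^ 3 ≤ 1 / (2 * (H : ℝ) ^ 2) := by
    intro t hts σ hσ ht
    refine le_trans ?_ (pos_sum hH M)
    have himg : (t.image Int.natAbs) ⊆ Finset.Ioc H M := by
      intro m hm
      obtain ⟨k, hk, rfl⟩ := Finset.mem_image.1 hm
      have h2 := hs k (hts hk)
      rw [Int.abs_eq_natAbs] at h2
      rw [Finset.mem_Ioc]
      refine ⟨by omega, Finset.le_sup (f := Int.natAbs) (hts hk)⟩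
    have hinj : Set.InjOn Int.natAbs (t : Set ℤ) := by
      intro k hk k' hk' h
      have a1 := ht k hk
      have a2 := ht k' hk'
      rcases hσ with rfl | rfl <;> omega
    have h3 : ∑ k ∈ t, 1 / |(k : ℝ)| ^ 3 = ∑ m ∈ t.image Int.natAbs, 1 / (m : ℝ) ^ 3 := by
      rw [Finset.sum_image hinj]
      refine Finset.sum_congr rfl fun k _ => ?_
      rw [Nat.cast_natAbs, Int.cast_abs]
    rw [h3]
    exact Finset.sum_le_sum_of_subset_of_nonneg himg fun m _ _ => by positivity
  rw [← Finset.sum_filter_add_sum_filter_not s fun k => 0 < k]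
  have h4 := h1 _ (Finset.filter_subset (fun k => 0 < k) s) 1 (Or.inl rfl) fun k hk => by
    have := (Finset.mem_filter.1 hk).2
    omega
  have h5 := h1 _ (Finset.filter_subset (fun k => ¬ 0 < k) s) (-1) (Or.inr rfl) fun k hk => by
    have h6 : ¬ 0 < k := (Finset.mem_filter.1 hk).2
    have h7 := hs k (Finset.mem_filter.1 hk).1
    have h8 : k ≠ 0 := by
      intro h9
      rw [h9, abs_zero] at h7
      omega
    omega
  have : 1 / (H : ℝ) ^ 2 = 1 / (2 * (H : ℝ) ^ 2) + 1 / (2 * (H : ℝ) ^ 2) := by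
    field_simp
    ring
  rw [this]
  exact add_le_add h4 h5

/-- `∑_{N < n ≤ N + R} a(n) e(nx)` -/
noncomputable def S (a : ℕ → ℂ) (N R : ℕ) (x : ℝ) : ℂ :=
  ∑ n ∈ Finset.Ioc N (N + R), a n * e (n * x)

lemma S_cont (a : ℕ → ℂ) (N R : ℕ) : Continuous (S a N R) :=
  continuous_finsetSum _ fun _ _ => continuous_const.mul (e_cont' _)

lemma main_lower {α δ : ℝ} (hδ : 0 < δ) (hδ1 : δ ≤ 1) {H : ℕ} (hH : 2 / δ ≤ H)
    (hH2 : (1 / δ) ^ 3 ≤ (H : ℝ) ^ 2) (a : ℕ → ℂ) (ha : ∀ n, ‖a n‖ ≤ 1) (N R : ℕ) (Y : Finset ℕ)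
    (hY : ∀ y ∈ Y, y ∈ Finset.Ioc N (N + R) ∧ ‖a y‖ = 1 ∧ ∀ n ∈ Finset.Ioc N (N + R), n ≠ y →
      |(y : ℤ) - n| ≤ H → a n = 0) :
    (Y.card : ℝ) * (δ ^ 2 / 16) ≤ ∫ x in α..(α + δ), ‖S a N R x‖ ^ 2 := by
  have hT : 0 < 1 / δ := by positivity
  have hH1 : 1 ≤ H := by
    have : (1 : ℝ) ≤ H := by
      refine le_trans ?_ hH
      rw [le_div_iff₀ hδ]
      linarith
    exact_mod_cast this
  set h : ℝ → ℂ := fun x => S a N R x * win α δ x with hh
  have hc : Continuous h := (S_cont a N R).mul (win_cont α δ)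
  set c : ℕ → ℂ := fun y => ∫ x in α..(α + δ), h x * e (-(y * x)) with hcd
  have hcv : ∀ y : ℕ, c y = ∑ n ∈ Finset.Ioc N (N + R), a n * wh α δ ((y : ℤ) - n) := by
    intro y
    have : ∀ x, h x * e (-(y * x)) = ∑ n ∈ Finset.Ioc N (N + R),
        a n * (win α δ x * e (-((((y : ℤ) - (n : ℤ) : ℤ) : ℝ) * x))) := by
      intro x
      rw [hh]
      simp only [S]
      rw [Finset.sum_mul, Finset.sum_mul]
      refine Finset.sum_congr rfl fun n _ => ?_
      have : -((((y : ℤ) - (n : ℤ) : ℤ) : ℝ) * x) = n * x + -(y * x) := by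
        push_cast
        ring
      rw [this, e_add]
      ring
    simp only [hcd, this]
    rw [intervalIntegral.integral_finsetSum]
    · refine Finset.sum_congr rfl fun n _ => ?_
      rw [intervalIntegral.integral_const_mul]
      rfl
    · intro n _
      refine (continuous_const.mul ((win_cont α δ).mul ?_)).intervalIntegrable _ _
      have := e_cont' (-(((y : ℤ) - (n : ℤ) : ℤ) : ℝ))
      simpa only [neg_mul] using this
  have hcy : ∀ y ∈ Y, δ / 4 ≤ ‖c y‖ := by
    intro y hy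
    obtain ⟨h1, h2, h3⟩ := hY y hy
    rw [hcv, ← Finset.add_sum_erase _ _ h1, sub_self, wh_zero hδ]
    set s := (Finset.Ioc N (N + R)).erase y with hs
    have h4 : ‖∑ n ∈ s, a n * wh α δ ((y : ℤ) - n)‖ ≤ δ / 4 := by
      have h5 : ∑ n ∈ s, a n * wh α δ ((y : ℤ) - n) =
          ∑ n ∈ s.filter fun n : ℕ => (H : ℤ) < |(y : ℤ) - n|, a n * wh α δ ((y : ℤ) - n) := by
        rw [Finset.sum_filter]
        refine Finset.sum_congr rfl fun n hn => ?_
        split_ifs with h6
        · rfl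
        · rw [h3 n (Finset.mem_of_mem_erase hn) (Finset.ne_of_mem_erase hn) (not_lt.1 h6),
            zero_mul]
      rw [h5]
      refine (norm_sum_le _ _).trans ?_
      have h7 : ∀ n ∈ s.filter fun n : ℕ => (H : ℤ) < |(y : ℤ) - n|,
          ‖a n * wh α δ ((y : ℤ) - n)‖ ≤
            ((1 / δ) ^ 2 / 4) * (1 / |(((y : ℤ) - n : ℤ) : ℝ)| ^ 3) := by
        intro n hn
        have h8 := (Finset.mem_filter.1 hn).2
        have h9 : (H : ℝ) ≤ |(((y : ℤ) - n : ℤ) : ℝ)| := by
          rw [← Int.cast_abs]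
          exact_mod_cast h8.le
        have h10 := wh_le (α := α) hδ (hH.trans h9)
        rw [norm_mul]
        calc ‖a n‖ * ‖wh α δ ((y : ℤ) - n)‖ ≤ 1 * ‖wh α δ ((y : ℤ) - n)‖ := by
              gcongr
              exact ha n
          _ ≤ _ := by
              rw [one_mul]
              refine h10.trans (le_of_eq ?_)
              rw [div_mul_div_comm, mul_one]
      refine (Finset.sum_le_sum h7).trans ?_
      rw [← Finset.mul_sum]
      have h11 : ∑ n ∈ s.filter fun n : ℕ => (H : ℤ) < |(y : ℤ) - n|,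
          1 / |(((y : ℤ) - n : ℤ) : ℝ)| ^ 3 ≤ 1 / (H : ℝ) ^ 2 := by
        have h12 := int_sum hH1 ((s.filter fun n : ℕ => (H : ℤ) < |(y : ℤ) - n|).image
          fun n : ℕ => (y : ℤ) - n) (by
            intro k hk
            obtain ⟨n, hn, rfl⟩ := Finset.mem_image.1 hk
            exact (Finset.mem_filter.1 hn).2)
        rw [Finset.sum_image] at h12
        · exact h12
        · intro n _ n' _ h
          have : (y : ℤ) - n = (y : ℤ) - n' := h
          omega
      have hHp : (0 : ℝ) < (H : ℝ) ^ 2 := by positivity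
      calc (1 / δ) ^ 2 / 4 * ∑ n ∈ s.filter fun n : ℕ => (H : ℤ) < |(y : ℤ) - n|,
            1 / |(((y : ℤ) - n : ℤ) : ℝ)| ^ 3
          ≤ (1 / δ) ^ 2 / 4 * (1 / (H : ℝ) ^ 2) := by gcongr
        _ ≤ (1 / δ) ^ 2 / 4 * (1 / (1 / δ) ^ 3) := by gcongr
        _ = δ / 4 := by
            field_simp
    have h13 : ‖a y * ((δ : ℂ) / 2)‖ = δ / 2 := by
      rw [norm_mul, h2, one_mul, norm_div, Complex.norm_real, Real.norm_of_nonneg hδ.le]
      simp
    have h14 := norm_sub_le_norm_add (a y * ((δ : ℂ) / 2)) (∑ n ∈ s, a n * wh α δ ((y : ℤ) - n))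
    rw [h13] at h14
    linarith
  have hb := bessel hδ.le hδ1 h hc Y c fun y => rfl
  have h1 : (Y.card : ℝ) * (δ ^ 2 / 16) ≤ ∑ y ∈ Y, ‖c y‖ ^ 2 := by
    rw [← nsmul_eq_mul]
    refine Finset.card_nsmul_le_sum _ _ _ fun y hy => ?_
    have := hcy y hy
    nlinarith [norm_nonneg (c y)]
  refine (h1.trans hb).trans ?_
  refine intervalIntegral.integral_mono_on (by linarith) ((hc.norm.pow 2).intervalIntegrable _ _)
    (((S_cont a N R).norm.pow 2).intervalIntegrable _ _) fun x _ => ?_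
  rw [hh]
  simp only [norm_mul]
  have := win_le α δ x
  have h2 : ‖S a N R x‖ * ‖win α δ x‖ ≤ ‖S a N R x‖ := by
    nlinarith [norm_nonneg (S a N R x)]
  gcongr

end Run7.h377.MA
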