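import Pool.Agent.Run7.h377.MA.Win

/-!
# Smoother windows: powers of the sine
-/

set_option autoImplicit false

open Filter Topology MeasureTheory Finset
open scoped ComplexConjugate Real

namespace Run7.h377.MA

/-- the power of the sine -/
noncomputable def sw (α δ : ℝ) (j : ℕ) (x : ℝ) : ℂ := ((Real.sin (Real.pi / δ * (x - α)) ^ j : ℝ) : ℂ)

lemma sw_cont (α δ : ℝ) (j : ℕ) : Continuous (sw α δ j) := by
  unfold sw
  fun_prop

lemma sw_le (α δ : ℝ) (j : ℕ) (x : ℝ) : ‖sw α δ j x‖ ≤ 1 := by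
  unfold sw
  rw [Complex.norm_real, norm_pow]
  exact pow_le_one₀ (norm_nonneg _) (Real.abs_sin_le_one _)

/-- its Fourier transform on the arc -/
noncomputable def sh (α δ : ℝ) (j : ℕ) (m : ℝ) : ℂ := ∫ x in α..(α + δ), sw α δ j x * e (-(m * x))

lemma e_deriv (m x : ℝ) : HasDerivAt (fun y : ℝ => e (-(m * y)))
    (-(2 * Real.pi * Complex.I * m) * e (-(m * x))) x := by
  have h1 : HasDerivAt (fun y : ℝ => (2 * Real.pi * Complex.I * ((-(m * y) : ℝ) : ℂ)))
      (-(2 * Real.pi * Complex.I * m)) x := by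
    have h2 : HasDerivAt (fun y : ℝ => ((y : ℝ) : ℂ)) 1 x := Complex.ofRealCLM.hasDerivAt
    have h3 := h2.const_mul (-(2 * Real.pi * Complex.I * m : ℂ))
    rw [mul_one] at h3
    refine h3.congr_of_eventuallyEq (Eventually.of_forall fun y => ?_)
    push_cast
    ring
  exact h1.cexp.congr_deriv (mul_comm _ _)

lemma sh_rec {α δ : ℝ} (hδ : 0 < δ) (j : ℕ) (m : ℝ) :
    ((4 * Real.pi ^ 2 * m ^ 2 - (j + 2) ^ 2 * (Real.pi / δ) ^ 2 : ℝ) : ℂ) * sh α δ (j + 2) m =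
      -(((j + 2) * (j + 1) * (Real.pi / δ) ^ 2 : ℝ) : ℂ) * sh α δ j m := by
  set w := Real.pi / δ with hw
  set s : ℝ → ℝ := fun x => Real.sin (w * (x - α)) with hs
  set c : ℝ → ℝ := fun x => Real.cos (w * (x - α)) with hc
  have hlin : ∀ x, HasDerivAt (fun y : ℝ => w * (y - α)) w x := fun x => by
    simpa using ((hasDerivAt_id x).sub_const α).const_mul w
  have hds : ∀ x, HasDerivAt s (w * c x) x := fun x => by
    have := (hlin x).sin
    rw [mul_comm] at this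
    exact this
  have hdc : ∀ x, HasDerivAt c (-(w * s x)) x := fun x => by
    have := (hlin x).cos
    convert this using 1
    simp only [hs]
    ring
  set G : ℝ → ℂ := fun x => ((((j + 2 : ℕ) : ℝ) * s x ^ (j + 1) * (w * c x) : ℝ) : ℂ) * e (-(m * x)) +
    (2 * Real.pi * Complex.I * m) * ((s x ^ (j + 2) : ℝ) : ℂ) * e (-(m * x)) with hG
  have hsc : ∀ x, s x ^ 2 + c x ^ 2 = 1 := fun x => Real.sin_sq_add_cos_sq _
  have hD : ∀ x, HasDerivAt G (((4 * Real.pi ^ 2 * m ^ 2 - (j + 2) ^ 2 * w ^ 2 : ℝ) : ℂ) *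
      (((s x ^ (j + 2) : ℝ) : ℂ) * e (-(m * x))) +
      (((j + 2) * (j + 1) * w ^ 2 : ℝ) : ℂ) * (((s x ^ j : ℝ) : ℂ) * e (-(m * x)))) x := by
    intro x
    have h1 : HasDerivAt (fun y => s y ^ (j + 2)) (((j + 2 : ℕ) : ℝ) * s x ^ (j + 1) * (w * c x)) x := by
      have := (hds x).fun_pow (j + 2)
      simpa using this
    have h2 : HasDerivAt (fun y => s y ^ (j + 1)) (((j + 1 : ℕ) : ℝ) * s x ^ j * (w * c x)) x := by
      have := (hds x).fun_pow (j + 1)
      simpa using this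
    have h3 : HasDerivAt (fun y => ((j + 2 : ℕ) : ℝ) * s y ^ (j + 1) * (w * c y))
        (((j + 2 : ℕ) : ℝ) * (((j + 1 : ℕ) : ℝ) * s x ^ j * (w * c x)) * (w * c x) +
          ((j + 2 : ℕ) : ℝ) * s x ^ (j + 1) * (w * -(w * s x))) x :=
      (h2.const_mul _).mul ((hdc x).const_mul w)
    have h4 := e_deriv m x
    have h5 := (h3.ofReal_comp.mul h4).add
      ((h1.ofReal_comp.const_mul (2 * Real.pi * Complex.I * m : ℂ)).mul h4)
    refine h5.congr_deriv ?_
    have hI : Complex.I ^ 2 = -1 := Complex.I_sq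
    have hcs : ((c x : ℝ) : ℂ) ^ 2 = 1 - ((s x : ℝ) : ℂ) ^ 2 := by
      have := hsc x
      have h6 : ((s x ^ 2 + c x ^ 2 : ℝ) : ℂ) = 1 := by rw [this]; simp
      push_cast at h6
      linear_combination h6
    push_cast
    simp only [pow_succ (((s x : ℝ) : ℂ)) (j + 1), pow_succ (((s x : ℝ) : ℂ)) j]
    linear_combination (((j : ℂ) + 2) * ((j : ℂ) + 1) * (w : ℂ) ^ 2 * ((s x : ℝ) : ℂ) ^ j *
      e (-(m * x))) * hcs - (4 * (Real.pi : ℂ) ^ 2 * (m : ℂ) ^ 2 * ((s x : ℝ) : ℂ) ^ j *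
      ((s x : ℝ) : ℂ) * ((s x : ℝ) : ℂ) * e (-(m * x))) * hI
  have hcontD : Continuous fun x => (((4 * Real.pi ^ 2 * m ^ 2 - (j + 2) ^ 2 * w ^ 2 : ℝ) : ℂ) *
      (((s x ^ (j + 2) : ℝ) : ℂ) * e (-(m * x))) +
      (((j + 2) * (j + 1) * w ^ 2 : ℝ) : ℂ) * (((s x ^ j : ℝ) : ℂ) * e (-(m * x)))) := by
    have h1 : Continuous s := by
      rw [hs]
      fun_prop
    have h2 : Continuous fun x : ℝ => e (-(m * x)) := e_cont.comp (by fun_prop)
    have h3 : ∀ i : ℕ, Continuous fun x : ℝ => ((s x ^ i : ℝ) : ℂ) := fun i =>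
      Complex.continuous_ofReal.comp (h1.pow i)
    exact (continuous_const.mul ((h3 _).mul h2)).add (continuous_const.mul ((h3 _).mul h2))
  have hF := intervalIntegral.integral_eq_sub_of_hasDerivAt (a := α) (b := α + δ)
    (fun x _ => hD x) (hcontD.intervalIntegrable _ _)
  have hs0 : s α = 0 := by simp [hs]
  have hs1 : s (α + δ) = 0 := by
    have : w * (α + δ - α) = Real.pi := by
      rw [hw]
      field_simp
      ring
    simp only [hs]
    rw [this, Real.sin_pi]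
  have hG0 : G α = 0 := by simp [hG, hs0]
  have hG1 : G (α + δ) = 0 := by simp [hG, hs1]
  rw [hG0, hG1, sub_self, intervalIntegral.integral_add, intervalIntegral.integral_const_mul,
    intervalIntegral.integral_const_mul] at hF
  · unfold sh sw
    have := hF
    rw [← eq_neg_iff_add_eq_zero] at this
    rw [neg_mul]
    exact this
  · have h1 : Continuous s := by
      rw [hs]
      fun_prop
    have h2 : Continuous fun x : ℝ => e (-(m * x)) := e_cont.comp (by fun_prop)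
    exact (continuous_const.mul ((Complex.continuous_ofReal.comp (h1.pow _)).mul
      h2)).intervalIntegrable _ _
  · have h1 : Continuous s := by
      rw [hs]
      fun_prop
    have h2 : Continuous fun x : ℝ => e (-(m * x)) := e_cont.comp (by fun_prop)
    exact (continuous_const.mul ((Complex.continuous_ofReal.comp (h1.pow _)).mul
      h2)).intervalIntegrable _ _

lemma sh_zero_le {α δ : ℝ} (hδ : 0 < δ) (m : ℝ) : ‖sh α δ 0 m‖ ≤ δ := by
  unfold sh
  refine (intervalIntegral.norm_integral_le_of_norm_le_const (C := 1) ?_).trans ?_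
  · intro x _
    rw [norm_mul, e_norm, mul_one]
    exact sw_le α δ 0 x
  · rw [add_sub_cancel_left, abs_of_pos hδ, one_mul]

/-- decay -/
lemma sh_decay {α δ : ℝ} (hδ : 0 < δ) (K : ℕ) {m : ℝ} (hm : 2 * K / δ ≤ |m|) (hm0 : 0 < |m|) (k : ℕ)
    (hk : k ≤ K) : ‖sh α δ (2 * k) m‖ ≤ ((2 * K / δ) ^ 2 / (3 * |m| ^ 2)) ^ k * δ := by
  induction k with
  | zero => simpa using sh_zero_le hδ m
  | succ k ih =>
    have ih := ih (by omega)
    have hr := congrArg norm (sh_rec (α := α) hδ (2 * k) m)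
    rw [norm_mul, norm_mul, norm_neg, Complex.norm_real, Complex.norm_real] at hr
    have h2 : 2 * (k + 1) = 2 * k + 2 := by ring
    rw [h2]
    have hkK : ((2 * k : ℕ) : ℝ) + 2 ≤ 2 * K := by
      have : 2 * k + 2 ≤ 2 * K := by omega
      exact_mod_cast this
    have hpi := Real.pi_pos
    set M := |m| with hM
    have hmM : m ^ 2 = M ^ 2 := (sq_abs m).symm
    set q := (2 * K / δ) with hq
    have hq0 : 0 ≤ q := by positivity
    have hjq : (((2 * k : ℕ) : ℝ) + 2) / δ ≤ q := by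
      rw [hq]
      gcongr
    have hj0 : 0 ≤ (((2 * k : ℕ) : ℝ) + 2) / δ := by positivity
    have e1 : (((2 * k : ℕ) : ℝ) + 2) ^ 2 * (Real.pi / δ) ^ 2 =
        Real.pi ^ 2 * ((((2 * k : ℕ) : ℝ) + 2) / δ) ^ 2 := by
      field_simp
    have hjq2 : ((((2 * k : ℕ) : ℝ) + 2) / δ) ^ 2 ≤ q ^ 2 := by gcongr
    have hq2 : q ^ 2 ≤ M ^ 2 := by gcongr
    have hpi2 : 0 < Real.pi ^ 2 := by positivity
    have lo : 3 * Real.pi ^ 2 * M ^ 2 ≤
        4 * Real.pi ^ 2 * m ^ 2 - (((2 * k : ℕ) : ℝ) + 2) ^ 2 * (Real.pi / δ) ^ 2 := by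
      rw [e1, hmM]
      nlinarith
    have lo0 : 0 < 3 * Real.pi ^ 2 * M ^ 2 := by positivity
    have up : ‖(((2 * k : ℕ) : ℝ) + 2) * (((2 * k : ℕ) : ℝ) + 1) * (Real.pi / δ) ^ 2‖ ≤
        Real.pi ^ 2 * q ^ 2 := by
      rw [Real.norm_of_nonneg (by positivity)]
      calc (((2 * k : ℕ) : ℝ) + 2) * (((2 * k : ℕ) : ℝ) + 1) * (Real.pi / δ) ^ 2
          ≤ (((2 * k : ℕ) : ℝ) + 2) * (((2 * k : ℕ) : ℝ) + 2) * (Real.pi / δ) ^ 2 := by gcongr; norm_num
        _ = (((2 * k : ℕ) : ℝ) + 2) ^ 2 * (Real.pi / δ) ^ 2 := by ring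
        _ = Real.pi ^ 2 * ((((2 * k : ℕ) : ℝ) + 2) / δ) ^ 2 := e1
        _ ≤ Real.pi ^ 2 * q ^ 2 := by gcongr
    rw [Real.norm_of_nonneg (lo0.le.trans lo)] at hr
    have h3 : 3 * Real.pi ^ 2 * M ^ 2 * ‖sh α δ (2 * k + 2) m‖ ≤
        Real.pi ^ 2 * q ^ 2 * ((q ^ 2 / (3 * M ^ 2)) ^ k * δ) := by
      calc 3 * Real.pi ^ 2 * M ^ 2 * ‖sh α δ (2 * k + 2) m‖
          ≤ (4 * Real.pi ^ 2 * m ^ 2 - (((2 * k : ℕ) : ℝ) + 2) ^ 2 * (Real.pi / δ) ^ 2) *
            ‖sh α δ (2 * k + 2) m‖ := by gcongr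
        _ = _ := hr
        _ ≤ _ := by gcongr
    have hB : 3 * M ^ 2 * (q ^ 2 / (3 * M ^ 2)) = q ^ 2 := by field_simp
    have h4 : Real.pi ^ 2 * q ^ 2 * ((q ^ 2 / (3 * M ^ 2)) ^ k * δ) =
        3 * Real.pi ^ 2 * M ^ 2 * ((q ^ 2 / (3 * M ^ 2)) ^ (k + 1) * δ) := by
      rw [pow_succ]
      linear_combination (-(Real.pi ^ 2 * (q ^ 2 / (3 * M ^ 2)) ^ k * δ)) * hB
    rw [h4] at h3
    exact le_of_mul_le_mul_left h3 lo0

/-- the integral of the window -/
lemma sh_main {α δ : ℝ} (hδ : 0 < δ) (k : ℕ) : ∃ r : ℝ, sh α δ (2 * k) 0 = (r : ℂ) ∧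
    δ / (2 * k + 1) ≤ r := by
  induction k with
  | zero =>
    refine ⟨δ, ?_, by simp⟩
    unfold sh sw
    simp [e]
  | succ k ih =>
    obtain ⟨r, hr, hrl⟩ := ih
    have h1 := sh_rec (α := α) hδ (2 * k) 0
    rw [hr] at h1
    have hw : (Real.pi / δ) ≠ 0 := by positivity
    have hw' : ((Real.pi / δ : ℝ) : ℂ) ≠ 0 := by exact_mod_cast hw
    have hj : (((2 * k : ℕ) : ℝ) + 2) ≠ 0 := by positivity
    refine ⟨r * (((2 * k : ℕ) : ℝ) + 1) / (((2 * k : ℕ) : ℝ) + 2), ?_, ?_⟩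
    · have h2 : 2 * (k + 1) = 2 * k + 2 := by ring
      rw [h2]
      have hA : (((((2 * k : ℕ) : ℝ) + 2) ^ 2 * (Real.pi / δ) ^ 2 : ℝ) : ℂ) ≠ 0 := by
        have : (((2 * k : ℕ) : ℝ) + 2) ^ 2 * (Real.pi / δ) ^ 2 ≠ 0 := by positivity
        exact_mod_cast this
      apply mul_left_cancel₀ hA
      have h3 : ((4 * Real.pi ^ 2 * (0 : ℝ) ^ 2 - (((2 * k : ℕ) : ℝ) + 2) ^ 2 * (Real.pi / δ) ^ 2 : ℝ) : ℂ) =
          -(((((2 * k : ℕ) : ℝ) + 2) ^ 2 * (Real.pi / δ) ^ 2 : ℝ) : ℂ) := by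
        rw [← Complex.ofReal_neg]
        congr 1
        ring
      rw [h3, neg_mul, neg_mul, neg_inj] at h1
      rw [h1, ← Complex.ofReal_mul, ← Complex.ofReal_mul]
      congr 1
      field_simp
    · have hk0 : (0 : ℝ) ≤ k := Nat.cast_nonneg k
      have hr0 : 0 < r := lt_of_lt_of_le (by positivity) hrl
      have h4 : δ / (2 * ((k + 1 : ℕ) : ℝ) + 1) ≤ δ / (2 * k + 1) *
          (((2 * k : ℕ) : ℝ) + 1) / (((2 * k : ℕ) : ℝ) + 2) := by
        push_cast
        have : δ / (2 * (k : ℝ) + 1) * (2 * k + 1) / (2 * k + 2) = δ / (2 * k + 2) := by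
          field_simp
        rw [this]
        exact div_le_div_of_nonneg_left hδ.le (by positivity) (by linarith)
      refine h4.trans ?_
      gcongr

lemma main_lower2 {α δ : ℝ} (hδ : 0 < δ) (hδ1 : δ ≤ 1) {k H : ℕ} (hk : 2 ≤ k)
    (hH : 4 * k / δ ≤ H) (hkH : 2 * (2 * (k : ℝ) + 1) * H ≤ 12 ^ k) (a : ℕ → ℂ)
    (ha : ∀ n, ‖a n‖ ≤ 1) (N R : ℕ) (Y : Finset ℕ)
    (hY : ∀ y ∈ Y, y ∈ Finset.Ioc N (N + R) ∧ ‖a y‖ = 1 ∧ ∀ n ∈ Finset.Ioc N (N + R), n ≠ y →
      |(y : ℤ) - n| ≤ H → a n = 0) :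
    (Y.card : ℝ) * (δ ^ 2 / (4 * (2 * k + 1) ^ 2)) ≤ ∫ x in α..(α + δ), ‖S a N R x‖ ^ 2 := by
  have hk2 : (2 : ℝ) ≤ k := by exact_mod_cast hk
  have hH1 : 1 ≤ H := by
    have : (1 : ℝ) ≤ H := by
      refine le_trans ?_ hH
      rw [le_div_iff₀ hδ]
      linarith
    exact_mod_cast this
  have hHpos : (0 : ℝ) < H := by exact_mod_cast hH1
  set h : ℝ → ℂ := fun x => S a N R x * sw α δ (2 * k) x with hh
  have hc : Continuous h := (S_cont a N R).mul (sw_cont α δ _)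
  set c : ℕ → ℂ := fun y => ∫ x in α..(α + δ), h x * e (-(y * x)) with hcd
  have hcv : ∀ y : ℕ, c y = ∑ n ∈ Finset.Ioc N (N + R),
      a n * sh α δ (2 * k) (((y : ℤ) - n : ℤ) : ℝ) := by
    intro y
    have : ∀ x, h x * e (-(y * x)) = ∑ n ∈ Finset.Ioc N (N + R),
        a n * (sw α δ (2 * k) x * e (-((((y : ℤ) - (n : ℤ) : ℤ) : ℝ) * x))) := by
      intro x
      rw [hh]
      simp only [S]
      rw [Finset.sum_mul, Finset.sum_mul]
      refine Finset.sum_congr rfl fun n _ => ?_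
      have : -((((y : ℤ) - (n : ℤ) : ℤ) : ℝ) * x) = n * x + -(y * x) := by
        push_cast
        ring
      rw [this, e_add]
      ring
    simp only [hcd, this]
    rw [intervalIntegral.integral_finsetSum]
    · refine Finset.sum_congr rfl fun n _ => ?_
      rw [intervalIntegral.integral_const_mul]
      rfl
    · intro n _
      refine (continuous_const.mul ((sw_cont α δ _).mul ?_)).intervalIntegrable _ _
      have := e_cont' (-(((y : ℤ) - (n : ℤ) : ℤ) : ℝ))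
      simpa only [neg_mul] using this
  obtain ⟨r, hr, hrl⟩ := sh_main (α := α) hδ k
  have hr0 : 0 < r := lt_of_lt_of_le (by positivity) hrl
  set D := δ / (2 * (k : ℝ) + 1) with hD
  have hD0 : 0 < D := by positivity
  have hcy : ∀ y ∈ Y, D / 2 ≤ ‖c y‖ := by
    intro y hy
    obtain ⟨h1, h2, h3⟩ := hY y hy
    rw [hcv, ← Finset.add_sum_erase _ _ h1, sub_self, Int.cast_zero, hr]
    set s := (Finset.Ioc N (N + R)).erase y with hs
    have h4 : ‖∑ n ∈ s, a n * sh α δ (2 * k) (((y : ℤ) - n : ℤ) : ℝ)‖ ≤ D / 2 := by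
      have h5 : ∑ n ∈ s, a n * sh α δ (2 * k) (((y : ℤ) - n : ℤ) : ℝ) =
          ∑ n ∈ s.filter fun n : ℕ => (H : ℤ) < |(y : ℤ) - n|,
            a n * sh α δ (2 * k) (((y : ℤ) - n : ℤ) : ℝ) := by
        rw [Finset.sum_filter]
        refine Finset.sum_congr rfl fun n hn => ?_
        split_ifs with h6
        · rfl
        · rw [h3 n (Finset.mem_of_mem_erase hn) (Finset.ne_of_mem_erase hn) (not_lt.1 h6),
            zero_mul]
      rw [h5]
      refine (norm_sum_le _ _).trans ?_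
      have h7 : ∀ n ∈ s.filter fun n : ℕ => (H : ℤ) < |(y : ℤ) - n|,
          ‖a n * sh α δ (2 * k) (((y : ℤ) - n : ℤ) : ℝ)‖ ≤
            (δ * (1 / 12) ^ k * H ^ 3) * (1 / |(((y : ℤ) - n : ℤ) : ℝ)| ^ 3) := by
        intro n hn
        have h8 := (Finset.mem_filter.1 hn).2
        set t : ℝ := |(((y : ℤ) - n : ℤ) : ℝ)| with ht
        have h9 : (H : ℝ) ≤ t := by
          rw [ht, ← Int.cast_abs]
          exact_mod_cast h8.le
        have ht0 : 0 < t := lt_of_lt_of_le hHpos h9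
        have hq : 2 * k / δ ≤ H / 2 := by
          have : 2 * k / δ = (4 * k / δ) / 2 := by ring
          rw [this]
          linarith
        have h10 := sh_decay (α := α) hδ k (m := (((y : ℤ) - n : ℤ) : ℝ))
          (by linarith) ht0 k le_rfl
        rw [norm_mul]
        have h11 : ((2 * k / δ) ^ 2 / (3 * t ^ 2)) ≤ (1 / 12) * (H / t) ^ 2 := by
          calc ((2 * k / δ) ^ 2 / (3 * t ^ 2)) ≤ (H / 2) ^ 2 / (3 * t ^ 2) := by gcongr
            _ = (1 / 12) * (H / t) ^ 2 := by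
              field_simp
              ring
        have h12 : ((2 * k / δ) ^ 2 / (3 * t ^ 2)) ^ k ≤ (1 / 12) ^ k * (H / t) ^ 3 := by
          calc ((2 * k / δ) ^ 2 / (3 * t ^ 2)) ^ k ≤ ((1 / 12) * (H / t) ^ 2) ^ k := by gcongr
            _ = (1 / 12) ^ k * (H / t) ^ (2 * k) := by rw [mul_pow, ← pow_mul]
            _ ≤ (1 / 12) ^ k * (H / t) ^ 3 := by
              refine mul_le_mul_of_nonneg_left ?_ (by positivity)
              exact pow_le_pow_of_le_one (by positivity) ((div_le_one ht0).2 h9) (by omega)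
        calc ‖a n‖ * ‖sh α δ (2 * k) (((y : ℤ) - n : ℤ) : ℝ)‖
            ≤ 1 * (((2 * k / δ) ^ 2 / (3 * t ^ 2)) ^ k * δ) :=
              mul_le_mul (ha n) h10 (norm_nonneg _) (by norm_num)
          _ ≤ 1 * (((1 / 12) ^ k * (H / t) ^ 3) * δ) := by gcongr
          _ = (δ * (1 / 12) ^ k * H ^ 3) * (1 / t ^ 3) := by
              rw [div_pow]
              ring
      refine (Finset.sum_le_sum h7).trans ?_
      rw [← Finset.mul_sum]
      have h11 : ∑ n ∈ s.filter fun n : ℕ => (H : ℤ) < |(y : ℤ) - n|,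
          1 / |(((y : ℤ) - n : ℤ) : ℝ)| ^ 3 ≤ 1 / (H : ℝ) ^ 2 := by
        have h12 := int_sum hH1 ((s.filter fun n : ℕ => (H : ℤ) < |(y : ℤ) - n|).image
          fun n : ℕ => (y : ℤ) - n) (by
            intro k hk
            obtain ⟨n, hn, rfl⟩ := Finset.mem_image.1 hk
            exact (Finset.mem_filter.1 hn).2)
        rw [Finset.sum_image] at h12
        · exact h12
        · intro n _ n' _ h
          have : (y : ℤ) - n = (y : ℤ) - n' := h
          omega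
      have h12k : (0 : ℝ) < 12 ^ k := by positivity
      calc (δ * (1 / 12) ^ k * H ^ 3) * ∑ n ∈ s.filter fun n : ℕ => (H : ℤ) < |(y : ℤ) - n|,
            1 / |(((y : ℤ) - n : ℤ) : ℝ)| ^ 3
          ≤ (δ * (1 / 12) ^ k * H ^ 3) * (1 / (H : ℝ) ^ 2) := by gcongr
        _ = δ * H / 12 ^ k := by
            rw [div_pow, one_pow]
            field_simp
        _ ≤ D / 2 := by
            rw [hD, div_div, div_le_div_iff₀ h12k (by positivity)]
            have : δ * H * ((2 * (k : ℝ) + 1) * 2) = δ * (2 * (2 * (k : ℝ) + 1) * H) := by ring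
            rw [this]
            gcongr
    have h13 : ‖a y * ((r : ℝ) : ℂ)‖ = r := by
      rw [norm_mul, h2, one_mul, Complex.norm_real, Real.norm_of_nonneg hr0.le]
    have h14 := norm_sub_le_norm_add (a y * ((r : ℝ) : ℂ))
      (∑ n ∈ s, a n * sh α δ (2 * k) (((y : ℤ) - n : ℤ) : ℝ))
    rw [h13] at h14
    linarith
  have hb := bessel hδ.le hδ1 h hc Y c fun y => rfl
  have h1 : (Y.card : ℝ) * (δ ^ 2 / (4 * (2 * k + 1) ^ 2)) ≤ ∑ y ∈ Y, ‖c y‖ ^ 2 := by
    have hDD : δ ^ 2 / (4 * (2 * (k : ℝ) + 1) ^ 2) = (D / 2) ^ 2 := by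
      rw [hD]
      field_simp
      ring
    rw [hDD, ← nsmul_eq_mul]
    refine Finset.card_nsmul_le_sum _ _ _ fun y hy => ?_
    have := hcy y hy
    gcongr
  refine (h1.trans hb).trans ?_
  refine intervalIntegral.integral_mono_on (by linarith) ((hc.norm.pow 2).intervalIntegrable _ _)
    (((S_cont a N R).norm.pow 2).intervalIntegrable _ _) fun x _ => ?_
  rw [hh]
  simp only [norm_mul]
  have := sw_le α δ (2 * k) x
  have h2 : ‖S a N R x‖ * ‖sw α δ (2 * k) x‖ ≤ ‖S a N R x‖ := by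
    nlinarith [norm_nonneg (S a N R x)]
  gcongr

end Run7.h377.MA
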